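import Mathlib
import Pool.Agent.L7h88.CG.Conf
import Pool.Agent.L7h88.CG.CSpread

set_option autoImplicit false

/-!
# Collisions of fat points: explicit open sets of germs, explicit germs, all fields

For a field `L`, a point `c` of `L` and `b = (b₀, …, b_(r-1))` let `Y` be the subscheme of the plane with
the ideal `(y - (b₀ + b₁ (x - c) + … + b_(r-1) (x - c) ^ (r-1)), (x - c) ^ r) ^ m`. Call `d` GOOD for
`(r, m)` if the forms of degree `d` through `Y` have the expected dimension for ONE `b` with rational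
coordinates (`L = ℚ`, `c = 0`). Let `r ≥ 10`.

1. All `d` are good but at most one, which lies in the window `Open`.
2. For every `m ≥ 1` there is a polynomial `Φ ≠ 0` with INTEGRAL coefficients in `b₀, …, b_(r-1)`, of
   total degree at most `2 N √(2 N)` and with sum of the absolute values of the coefficients at most
   `(N!) ^ 2 * (2 r) ^ (2 N √(2 N))`, `N = r m (m + 1) / 2`, such that for EVERY field `L` of any
   characteristic, every `c`, every `b` with `Φ(b) ≠ 0` and EVERY `d` the dimension is the expected one if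
   and only if `d` is good.
3. `Φ ≠ 0` over every field of characteristic zero or `p > (N!) ^ 2 * (2 r) ^ (2 N √(2 N))`, with at most
   `2 N √(2 N) |S| ^ (r - 1)` zeros with coordinates in a finite set `S`, and `Φ(b) ≠ 0` for some `b` with
   coordinates in `{0, …, 2 N √(2 N)}` and for `b_l = T ^ (E ^ l)`, if `E > 2 N √(2 N)` and
   `T > (N!) ^ 2 * (2 r) ^ (2 N √(2 N))`.
-/

namespace Pool.Agent.Results.MP_e6aa12_ag.CollisionEffectiveEveryField

open Polynomial

universe u

/-- The forms of degree `d` in three variables whose dehomogenisation lies in the ideal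
`(y - ∑ b_l (x - c) ^ l, (x - c) ^ r) ^ m` of `L[x][y]`. -/
noncomputable def forms {L : Type u} [Field L] {r : ℕ} (m : ℕ) (c : L) (b : Fin r → L) (d : ℕ) :
    Submodule L (MvPolynomial (Fin 3) L) :=
  MvPolynomial.homogeneousSubmodule (Fin 3) L d ⊓
    (Submodule.restrictScalars L
      ((Ideal.span {X - C (∑ l : Fin r, C (b l) * (X - C c) ^ (l : ℕ)), C ((X - C c) ^ r)} :
        Ideal L[X][X]) ^ m)).comap
      (MvPolynomial.aeval ![C X, X, 1] :
        MvPolynomial (Fin 3) L →ₐ[L] L[X][X]).toLinearMap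

/-- The forms of degree `d` have the expected dimension. -/
def Expected {L : Type u} [Field L] {r : ℕ} (m : ℕ) (c : L) (b : Fin r → L) (d : ℕ) : Prop :=
  Module.finrank L ↥(forms m c b d) = (d + 2).choose 2 - r * (m + 1).choose 2

/-- `d` is good: the dimension is the expected one for one germ with rational coefficients. -/
def Good (r m d : ℕ) : Prop := ∃ b : Fin r → ℚ, Expected m 0 b d

/-- The window of the degree which may be left open. -/
def Open (r m d : ℕ) : Prop :=
  ¬ IsSquare r ∧ (r : ℝ) - 6 * √(r : ℝ) + 11 < m ∧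
  √(r : ℝ) * m < d ∧ (d : ℝ) + 3 < √(r : ℝ) * (m + 1) ∧
  √(r : ℝ) * (2 * m + 1) ≤ 2 * (d : ℝ) + 3 + (2 / 3 + 9 / (4 * √(r : ℝ))) ∧
  2 * (d : ℝ) + 3 ≤ √(r : ℝ) * (2 * m + 1) + (2 / 3 + 1 / (4 * √(r : ℝ))) ∧
  (r = 11 → 3 ∣ d ∧ 3 * (√(r : ℝ) - 3) / (√(r : ℝ) + 3) ≤ (d : ℝ) - √(r : ℝ) * m) ∧
  (r = 11 ∨ r = 13 → 3 ∣ d ∧ 2 * (d : ℝ) + 3 < √(r : ℝ) * (2 * m + 1))

/-- The value at `b` of a polynomial with integral coefficients. -/
noncomputable def value {L : Type u} [Field L] {r : ℕ} (Φ : MvPolynomial (Fin r) ℤ) (b : Fin r → L) :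
    L :=
  MvPolynomial.eval b (Φ.map (Int.castRingHom L))

/-- The sum of the absolute values of the coefficients. -/
noncomputable def height {r : ℕ} (Φ : MvPolynomial (Fin r) ℤ) : ℕ :=
  ∑ s ∈ Φ.support, (Φ.coeff s).natAbs

/-- The number `N = r m (m + 1) / 2` of the conditions. -/
def conds (r m : ℕ) : ℕ := r * (m + 1).choose 2

/-- The bound for the degree. -/
def degreeBound (r m : ℕ) : ℕ := 2 * conds r m * Nat.sqrt (2 * conds r m)

/-- The bound for the height. -/
def heightBound (r m : ℕ) : ℕ := (conds r m).factorial ^ 2 * (2 * r) ^ degreeBound r m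

theorem expected_iff {L : Type u} [Field L] {r m : ℕ} {c : L} {b : Fin r → L} {d : ℕ} :
    Expected m c b d ↔ Pool.Agent.H932R3.JetDim r m 0 b d :=
  Pool.Agent.L7h88.CG.cen_iff

theorem good_iff {r m d : ℕ} : Good r m d ↔ Pool.Agent.L7h88.CG.Gen r m d :=
  exists_congr fun _ => expected_iff

theorem value_eq {L : Type u} [Field L] {r : ℕ} (Φ : MvPolynomial (Fin r) ℤ) (b : Fin r → L) :
    value Φ b = Pool.Agent.L7h88.CG.ev0 b Φ := by
  unfold value Pool.Agent.L7h88.CG.ev0
  rw [MvPolynomial.eval_map, MvPolynomial.coe_eval₂Hom]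

/-- **Main result.** -/
theorem result (r m : ℕ) (hr : 10 ≤ r) (hm : 1 ≤ m) :
    -- at most one degree is not good, and it lies in the window
    {d | ¬ Good r m d}.Subsingleton ∧ (∀ d : ℕ, ¬ Good r m d → Open r m d) ∧
      ∃ Φ : MvPolynomial (Fin r) ℤ, Φ ≠ 0 ∧ Φ.totalDegree ≤ degreeBound r m ∧
        height Φ ≤ heightBound r m ∧
        -- every field
        (∀ (L : Type u) [Field L] (c : L) (b : Fin r → L), value Φ b ≠ 0 →
          ∀ d : ℕ, Expected m c b d ↔ Good r m d) ∧
        -- characteristic zero or large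
        (∀ (L : Type u) [Field L], (CharZero L ∨ ∃ p : ℕ, CharP L p ∧ heightBound r m < p) →
          Φ.map (Int.castRingHom L) ≠ 0 ∧
          ∀ S : Finset L, Set.ncard {b : Fin r → L | (∀ l, b l ∈ S) ∧ value Φ b = 0} * S.card ≤
            degreeBound r m * S.card ^ r) ∧
        -- germs with small integral coefficients
        (∃ b : Fin r → ℕ, (∀ l, b l ≤ degreeBound r m) ∧
          ∀ (L : Type u) [Field L] [CharZero L], value Φ (fun l => (b l : L)) ≠ 0) ∧
        -- explicit germs
        (∀ E T : ℕ, degreeBound r m < E → heightBound r m < T →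
          ∀ (L : Type u) [Field L] [CharZero L],
            value Φ (fun l : Fin r => (T : L) ^ E ^ (l : ℕ)) ≠ 0) := by
  classical
  have hsub : {d | ¬ Good r m d}.Subsingleton := by
    intro x hx y hy
    have hx' : ¬ Good r m x := hx
    have hy' : ¬ Good r m y := hy
    rw [good_iff] at hx' hy'
    exact Pool.Agent.L7h88.CG.win_unique hr
      (by_contra fun h => hx' (Pool.Agent.L7h88.CG.gen_of_not_win hr h))
      (by_contra fun h => hy' (Pool.Agent.L7h88.CG.gen_of_not_win hr h))
  refine ⟨hsub, fun d hd => ?_, ?_⟩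
  · by_contra h
    exact hd (good_iff.2 (Pool.Agent.L7h88.CG.gen_of_not_win hr h))
  have hc3 : 3 ≤ Pool.Agent.L7h88.CG.cn r m := by
    unfold Pool.Agent.L7h88.CG.cn
    have h1 : 1 ≤ (m + 1).choose 2 := Nat.choose_pos (by omega)
    calc 3 ≤ 10 * 1 := by norm_num
      _ ≤ r * (m + 1).choose 2 := Nat.mul_le_mul hr h1
  obtain ⟨Φ, h1, h2, h3, h4⟩ := Pool.Agent.L7h88.CG.spread_all0.{u} (K := ℚ) (m := m)
    (by omega : 1 ≤ r) hc3 {d | ¬ Good r m d}
    (by
      rcases hsub.eq_empty_or_singleton with h | ⟨x, h⟩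
      · exact Or.inl h
      · exact Or.inr ⟨x, h⟩) (fun d hd => by
        have hd' : ¬ ¬ Good r m d := hd
        exact good_iff.1 (not_not.1 hd'))
  have hcount : ∀ (L : Type u) [Field L], (CharZero L ∨ ∃ p : ℕ, CharP L p ∧ heightBound r m < p) →
      Φ.map (Int.castRingHom L) ≠ 0 ∧
      ∀ S : Finset L, Set.ncard {b : Fin r → L | (∀ l, b l ∈ S) ∧ value Φ b = 0} * S.card ≤
        degreeBound r m * S.card ^ r := by
    intro L _ hL
    have h5 := Pool.Agent.Y210.EF.map_ne_zero_of_lt h1 h3 hL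
    refine ⟨h5, fun S => ?_⟩
    have h6 := Pool.Agent.L7h88.CG.count_zeros0 h5
      ((Finset.sup_mono (MvPolynomial.support_map_subset _ _)).trans h2) S
    refine le_trans (le_of_eq ?_) h6
    congr 1
    rw [← Set.ncard_coe_finset]
    congr 1
    ext Y
    simp only [Set.mem_ofPred_eq, Finset.coe_filter, Fintype.mem_piFinset, value]
  -- evaluation at integral points
  have hint : ∀ (x : Fin r → ℤ) (L : Type u) [Field L],
      value Φ (fun l => ((x l : ℤ) : L)) = ((MvPolynomial.eval x Φ : ℤ) : L) := by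
    intro x L _
    unfold value
    rw [MvPolynomial.eval_map]
    have h7 := MvPolynomial.eval₂_comp_left (Int.castRingHom L) (RingHom.id ℤ) x Φ
    rw [RingHom.comp_id] at h7
    show _ = (Int.castRingHom L) (MvPolynomial.eval₂ (RingHom.id ℤ) _ Φ)
    rw [h7]
    congr 1
  refine ⟨Φ, h1, h2, h3, fun L _ c b hb d => ?_, hcount, ?_, fun E T hE hT L _ _ h0 => ?_⟩
  · rw [expected_iff]
    constructor
    · intro h
      exact good_iff.2 (Pool.Agent.L7h88.CG.gen_of_any (by omega) h)
    · intro h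
      rw [value_eq] at hb
      exact h4 L b hb d fun h5 => h5 h
  · -- small integral coefficients
    obtain ⟨B, hB⟩ : ∃ B, B = degreeBound r m := ⟨_, rfl⟩
    have h5 : Φ.map (Int.castRingHom ℚ) ≠ 0 :=
      Pool.Agent.Y210.EF.map_ne_zero_of_lt h1 h3 (Or.inl inferInstance)
    obtain ⟨S, hS⟩ : ∃ S : Finset ℚ, S = (Finset.range (B + 1)).image (fun k : ℕ => (k : ℚ)) :=
      ⟨_, rfl⟩
    have hScard : S.card = B + 1 := by
      rw [hS, Finset.card_image_of_injective _ Nat.cast_injective, Finset.card_range]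
    have h6 := Pool.Agent.L7h88.CG.count_zeros0 h5
      ((Finset.sup_mono (MvPolynomial.support_map_subset _ _)).trans h2) S
    obtain ⟨Y, hY, hY0⟩ : ∃ Y : Fin r → ℚ, (∀ l, Y l ∈ S) ∧
        MvPolynomial.eval Y (Φ.map (Int.castRingHom ℚ)) ≠ 0 := by
      by_contra hcon
      push Not at hcon
      have h7 : ((Fintype.piFinset fun _ : Fin r => S).filter fun Y =>
          MvPolynomial.eval Y (Φ.map (Int.castRingHom ℚ)) = 0) =
          Fintype.piFinset fun _ : Fin r => S :=
        Finset.filter_true_of_mem fun Y hY => hcon Y fun l => Fintype.mem_piFinset.1 hY l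
      rw [h7, Fintype.card_piFinset, Finset.prod_const, Finset.card_univ, Fintype.card_fin,
        mul_comm] at h6
      have h8 := Nat.le_of_mul_le_mul_right h6 (pow_pos (by omega) _)
      have h9 : 2 * Pool.Agent.L7h88.CG.cn r m * Nat.sqrt (2 * Pool.Agent.L7h88.CG.cn r m) = B := by
        rw [hB]; rfl
      omega
    have h8 : ∀ l, ∃ k : ℕ, k ≤ B ∧ (k : ℚ) = Y l := by
      intro l
      have h9 := hY l
      rw [hS, Finset.mem_image] at h9
      obtain ⟨k, hk, hk'⟩ := h9
      exact ⟨k, by rw [Finset.mem_range] at hk; omega, hk'⟩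
    choose y hy hy' using h8
    refine ⟨y, fun l => by rw [← hB]; exact hy l, fun L _ _ h0 => hY0 ?_⟩
    have h11 := hint (fun l => (y l : ℤ)) L
    push_cast at h11
    rw [h0] at h11
    have h13 : MvPolynomial.eval (fun l => (y l : ℤ)) Φ = 0 := by exact_mod_cast h11.symm
    have h14 := MvPolynomial.eval₂_comp_left (Int.castRingHom ℚ) (RingHom.id ℤ)
      (fun l => (y l : ℤ)) Φ
    rw [RingHom.comp_id] at h14
    have h15 : MvPolynomial.eval₂ (RingHom.id ℤ) (fun l => (y l : ℤ)) Φ = 0 := h13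
    rw [h15, map_zero] at h14
    rw [MvPolynomial.eval_map, h14]
    congr 1
    funext l
    rw [← hy' l]
    simp
  · have h5 := Pool.Agent.Y210.EF.kron h1 (h2.trans_lt hE) (h3.trans_lt hT)
    apply h5
    have h6 := hint (fun l : Fin r => (T : ℤ) ^ (E ^ (l : ℕ))) L
    push_cast at h6
    rw [h0] at h6
    exact_mod_cast h6.symm

end Pool.Agent.Results.MP_e6aa12_ag.CollisionEffectiveEveryField
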