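import Mathlib
import Pool.Agent.L7h16.GS.Col

set_option autoImplicit false

/-!
# Collisions of fat points: germs with fast growing natural numbers as coefficients

For a point `c` of a field `L` and `b = (b₀, …, b_(r-1))` let `Y` be the subscheme of the plane with the
ideal `(y - (b₀ + b₁ (x - c) + … + b_(r-1) (x - c) ^ (r-1)), (x - c) ^ r) ^ m`. Call `d` GOOD for `(r, m)`
if the forms of degree `d` through `Y` have the expected dimension for ONE `b` with rational coordinates
(`L = ℚ`, `c = 0`), and call `b` GENERAL for `m` if for all `c` and all `d` these forms have the expected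
dimension if and only if `d` is good for `(r, m)`. Let `r ≥ 10`, `m ≥ 1`, `N = r m (m + 1) / 2`,
`D = 2 N √(2 N)` and `H = (N!) ^ 2 (2 r) ^ D`. All `d` are good but at most one, which lies in the window
`Open`.

1. Every `r`-tuple of natural numbers larger than `H`, each of which is larger than `H x ^ D` for all
   smaller members `x` of the tuple, is general for `m`, in any order, over every field of characteristic
   zero or `p > H x ^ D`, `x` the largest member.
2. In the ONE sequence of the numbers `2 ^ j!`, any `r` distinct members with `j > D`, in any order, are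
   general for `m`, for all `r ≥ 10` and `m ≥ 1`.
-/

namespace Pool.Agent.Results.MP_e6aa12_ag.FastGrowingSequences

open Polynomial

universe u

/-- The forms of degree `d` in three variables whose dehomogenisation lies in the ideal
`(y - ∑ b_l (x - c) ^ l, (x - c) ^ r) ^ m` of `L[x][y]`. -/
noncomputable def forms {L : Type u} [Field L] {r : ℕ} (m : ℕ) (c : L) (b : Fin r → L) (d : ℕ) :
    Submodule L (MvPolynomial (Fin 3) L) :=
  MvPolynomial.homogeneousSubmodule (Fin 3) L d ⊓
    (Submodule.restrictScalars L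
      ((Ideal.span {X - C (∑ l : Fin r, C (b l) * (X - C c) ^ (l : ℕ)), C ((X - C c) ^ r)} :
        Ideal L[X][X]) ^ m)).comap
      (MvPolynomial.aeval ![C X, X, 1] :
        MvPolynomial (Fin 3) L →ₐ[L] L[X][X]).toLinearMap

/-- The forms of degree `d` have the expected dimension. -/
def Expected {L : Type u} [Field L] {r : ℕ} (m : ℕ) (c : L) (b : Fin r → L) (d : ℕ) : Prop :=
  Module.finrank L ↥(forms m c b d) = (d + 2).choose 2 - r * (m + 1).choose 2

/-- `d` is good: the dimension is the expected one for one germ with rational coefficients. -/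
def Good (r m d : ℕ) : Prop := ∃ b : Fin r → ℚ, Expected m 0 b d

/-- The window of the degree which may be left open. -/
def Open (r m d : ℕ) : Prop :=
  ¬ IsSquare r ∧ (r : ℝ) - 6 * √(r : ℝ) + 11 < m ∧
  √(r : ℝ) * m < d ∧ (d : ℝ) + 3 < √(r : ℝ) * (m + 1) ∧
  √(r : ℝ) * (2 * m + 1) ≤ 2 * (d : ℝ) + 3 + (2 / 3 + 9 / (4 * √(r : ℝ))) ∧
  2 * (d : ℝ) + 3 ≤ √(r : ℝ) * (2 * m + 1) + (2 / 3 + 1 / (4 * √(r : ℝ))) ∧
  (r = 11 → 3 ∣ d ∧ 3 * (√(r : ℝ) - 3) / (√(r : ℝ) + 3) ≤ (d : ℝ) - √(r : ℝ) * m) ∧
  (r = 11 ∨ r = 13 → 3 ∣ d ∧ 2 * (d : ℝ) + 3 < √(r : ℝ) * (2 * m + 1))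

/-- The number `N = r m (m + 1) / 2` of the conditions. -/
def conds (r m : ℕ) : ℕ := r * (m + 1).choose 2

/-- The bound for the degree. -/
def degreeBound (r m : ℕ) : ℕ := 2 * conds r m * Nat.sqrt (2 * conds r m)

/-- The bound for the height. -/
def heightBound (r m : ℕ) : ℕ := (conds r m).factorial ^ 2 * (2 * r) ^ degreeBound r m

theorem expected_iff {L : Type u} [Field L] {r m : ℕ} {c : L} {b : Fin r → L} {d : ℕ} :
    Expected m c b d ↔ Pool.Agent.H932R3.JetDim r m 0 b d :=
  Pool.Agent.L7h88.CG.cen_iff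

theorem good_iff {r m d : ℕ} : Good r m d ↔ Pool.Agent.L7h88.CG.Gen r m d :=
  exists_congr fun _ => expected_iff

/-- **Main result.** -/
theorem result :
    -- at most one degree is not good, and it lies in the window
    (∀ r m : ℕ, 10 ≤ r → {d | ¬ Good r m d}.Subsingleton ∧ ∀ d : ℕ, ¬ Good r m d → Open r m d) ∧
    -- fast growing natural numbers
    (∀ r m : ℕ, 10 ≤ r → 1 ≤ m → ∀ x : Fin r → ℕ, Function.Injective x →
      (∀ l, heightBound r m < x l) →
      (∀ l l', x l < x l' → heightBound r m * x l ^ degreeBound r m < x l') →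
      ∀ (L : Type u) [Field L],
        (CharZero L ∨ ∃ p : ℕ, CharP L p ∧ ∀ l, heightBound r m * x l ^ degreeBound r m < p) →
        ∀ (c : L) (d : ℕ), Expected m c (fun l => (x l : L)) d ↔ Good r m d) ∧
    -- the sequence of the numbers `2 ^ j!`
    (∀ r m : ℕ, 10 ≤ r → 1 ≤ m → ∀ i : Fin r → ℕ, Function.Injective i →
      (∀ l, degreeBound r m < i l) → ∀ (L : Type u) [Field L],
        (CharZero L ∨ ∃ p : ℕ, CharP L p ∧
          ∀ l, heightBound r m * (2 ^ (i l).factorial) ^ degreeBound r m < p) →
        ∀ (c : L) (d : ℕ), Expected m c (fun l => (2 : L) ^ (i l).factorial) d ↔ Good r m d) := by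
  refine ⟨fun r m hr => ⟨?_, fun d hd => ?_⟩, ?_, ?_⟩
  · intro x hx y hy
    have hx' : ¬ Good r m x := hx
    have hy' : ¬ Good r m y := hy
    rw [good_iff] at hx' hy'
    exact Pool.Agent.L7h88.CG.win_unique hr
      (by_contra fun h => hx' (Pool.Agent.L7h88.CG.gen_of_not_win hr h))
      (by_contra fun h => hy' (Pool.Agent.L7h88.CG.gen_of_not_win hr h))
  · by_contra h
    exact hd (good_iff.2 (Pool.Agent.L7h88.CG.gen_of_not_win hr h))
  · intro r m hr hm x hinj hx hx' L _ hL c d
    rw [expected_iff, good_iff]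
    exact Pool.Agent.L7h16.GS.col_grow hr hm hinj hx hx' L hL d
  · intro r m hr hm i hi hD L _ hL c d
    rw [expected_iff, good_iff]
    exact Pool.Agent.L7h16.GS.col_fact hr hm hi hD L hL d

end Pool.Agent.Results.MP_e6aa12_ag.FastGrowingSequences
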