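import Mathlib
import Pool.Agent.L7h88.CG.Exf

set_option autoImplicit false

/-!
# The germs of a transcendental curve are in general position

For a point `c` of a field `L` and `b = (b₀, …, b_(r-1))` let `Y` be the subscheme of the plane with the
ideal `(y - (b₀ + b₁ (x - c) + … + b_(r-1) (x - c) ^ (r-1)), (x - c) ^ r) ^ m`. Call `d` GOOD for `(r, m)`
if the forms of degree `d` through `Y` have the expected dimension for ONE `b` with rational coordinates
(`L = ℚ`, `c = 0`). For `r ≥ 10` all `d` are good but at most one, which lies in the window `Open`.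

Let `f` be a holomorphic function on a connected open subset `U` of `ℂ` which satisfies no algebraic
differential equation `P(f, f', …, f ^ (N)) = 0` with constant rational coefficients. Then for all `c` in
`U` but countably many the germs of the ONE curve `y = f(x)` at `c`, of every order `r` and taken with
every multiplicity `m`, are in general position: for ALL `r`, `m`, `d` the forms of degree `d` through the
scheme with the ideal `(y - f(x), (x - c) ^ r) ^ m` have the expected dimension if and only if `d` is good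
for `(r, m)`. For given `r ≥ 10` and `m` the exceptional points `c` have no accumulation point in `U`.

The entire function `∑ exp (2 ^ (1 / 2 ^ (l + 1))) x ^ l / l!` satisfies no such equation, and `c = 0` is
not exceptional for it.
-/

namespace Pool.Agent.Results.MP_e6aa12_ag.GermsOfAnalyticCurves

open Polynomial
open scoped Topology

/-- The forms of degree `d` in three variables whose dehomogenisation lies in the ideal
`(y - ∑ b_l (x - c) ^ l, (x - c) ^ r) ^ m` of `L[x][y]`. -/
noncomputable def forms {L : Type} [Field L] {r : ℕ} (m : ℕ) (c : L) (b : Fin r → L) (d : ℕ) :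
    Submodule L (MvPolynomial (Fin 3) L) :=
  MvPolynomial.homogeneousSubmodule (Fin 3) L d ⊓
    (Submodule.restrictScalars L
      ((Ideal.span {X - C (∑ l : Fin r, C (b l) * (X - C c) ^ (l : ℕ)), C ((X - C c) ^ r)} :
        Ideal L[X][X]) ^ m)).comap
      (MvPolynomial.aeval ![C X, X, 1] :
        MvPolynomial (Fin 3) L →ₐ[L] L[X][X]).toLinearMap

/-- The forms of degree `d` have the expected dimension. -/
def Expected {L : Type} [Field L] {r : ℕ} (m : ℕ) (c : L) (b : Fin r → L) (d : ℕ) : Prop :=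
  Module.finrank L ↥(forms m c b d) = (d + 2).choose 2 - r * (m + 1).choose 2

/-- `d` is good: the dimension is the expected one for one germ with rational coefficients. -/
def Good (r m d : ℕ) : Prop := ∃ b : Fin r → ℚ, Expected m 0 b d

/-- The window of the degree which may be left open. -/
def Open (r m d : ℕ) : Prop :=
  ¬ IsSquare r ∧ (r : ℝ) - 6 * √(r : ℝ) + 11 < m ∧
  √(r : ℝ) * m < d ∧ (d : ℝ) + 3 < √(r : ℝ) * (m + 1) ∧
  √(r : ℝ) * (2 * m + 1) ≤ 2 * (d : ℝ) + 3 + (2 / 3 + 9 / (4 * √(r : ℝ))) ∧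
  2 * (d : ℝ) + 3 ≤ √(r : ℝ) * (2 * m + 1) + (2 / 3 + 1 / (4 * √(r : ℝ))) ∧
  (r = 11 → 3 ∣ d ∧ 3 * (√(r : ℝ) - 3) / (√(r : ℝ) + 3) ≤ (d : ℝ) - √(r : ℝ) * m) ∧
  (r = 11 ∨ r = 13 → 3 ∣ d ∧ 2 * (d : ℝ) + 3 < √(r : ℝ) * (2 * m + 1))

/-- The first `r` Taylor coefficients of `f` at `c`. -/
noncomputable def jet (f : ℂ → ℂ) (r : ℕ) (c : ℂ) : Fin r → ℂ := fun l =>
  iteratedDeriv (l : ℕ) f c / ((l : ℕ).factorial : ℂ)

/-- On `U` the function `f` satisfies no algebraic differential equation with constant rational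
coefficients. -/
def NoEquation (U : Set ℂ) (f : ℂ → ℂ) : Prop :=
  ∀ (N : ℕ) (P : MvPolynomial (Fin N) ℚ), P ≠ 0 →
    ∃ c ∈ U, MvPolynomial.aeval (fun l : Fin N => iteratedDeriv (l : ℕ) f c) P ≠ 0

/-- The entire function `∑ exp (2 ^ (1 / 2 ^ (l + 1))) x ^ l / l!`. -/
noncomputable def entire (x : ℂ) : ℂ :=
  ∑' l : ℕ, ((Real.exp ((2 : ℝ) ^ ((1 : ℝ) / 2 ^ (l + 1))) : ℝ) : ℂ) / (l.factorial : ℂ) * x ^ l

theorem expected_iff {L : Type} [Field L] {r m : ℕ} {c : L} {b : Fin r → L} {d : ℕ} :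
    Expected m c b d ↔ Pool.Agent.H932R3.JetDim r m 0 b d :=
  Pool.Agent.L7h88.CG.cen_iff

theorem good_iff {r m d : ℕ} : Good r m d ↔ Pool.Agent.L7h88.CG.Gen r m d :=
  exists_congr fun _ => expected_iff

/-- **Main result.** -/
theorem result :
    -- at most one degree is not good, and it lies in the window
    (∀ r m : ℕ, 10 ≤ r → {d | ¬ Good r m d}.Subsingleton ∧ ∀ d : ℕ, ¬ Good r m d → Open r m d) ∧
    -- the germs of a transcendental curve
    (∀ (U : Set ℂ) (f : ℂ → ℂ), IsOpen U → IsPreconnected U → DifferentiableOn ℂ f U →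
      NoEquation U f →
      {c | c ∈ U ∧ ∃ r m d : ℕ, 1 ≤ r ∧ ¬ (Expected m c (jet f r c) d ↔ Good r m d)}.Countable ∧
      ∀ r m : ℕ, 10 ≤ r → 1 ≤ m → ∀ z ∈ U, ∃ t ∈ 𝓝 z,
        (t ∩ {c | c ∈ U ∧ ∃ d : ℕ, ¬ (Expected m c (jet f r c) d ↔ Good r m d)}).Finite) ∧
    -- an explicit entire function
    Differentiable ℂ entire ∧ NoEquation Set.univ entire ∧
      ∀ r m d : ℕ, 1 ≤ r → (Expected m 0 (jet entire r 0) d ↔ Good r m d) := by
  have hent : entire = Pool.Agent.L7h88.CG.Ef := rfl
  refine ⟨fun r m hr => ⟨?_, fun d hd => ?_⟩, fun U f hU hU' hf hN => ⟨?_, ?_⟩, ?_, ?_, ?_⟩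
  · intro x hx y hy
    have hx' : ¬ Good r m x := hx
    have hy' : ¬ Good r m y := hy
    rw [good_iff] at hx' hy'
    exact Pool.Agent.L7h88.CG.win_unique hr
      (by_contra fun h => hx' (Pool.Agent.L7h88.CG.gen_of_not_win hr h))
      (by_contra fun h => hy' (Pool.Agent.L7h88.CG.gen_of_not_win hr h))
  · by_contra h
    exact hd (good_iff.2 (Pool.Agent.L7h88.CG.gen_of_not_win hr h))
  · refine (Pool.Agent.L7h88.CG.countable_bad hU hU' hf hN).mono ?_
    rintro c ⟨hc, r, m, d, hr, h⟩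
    rw [expected_iff, good_iff] at h
    exact ⟨hc, r, m, d, hr, h⟩
  · intro r m hr hm z hz
    obtain ⟨t, ht, ht'⟩ := Pool.Agent.L7h88.CG.loc_finite hU hU' hf hN hr hm hz
    refine ⟨t, ht, ht'.subset ?_⟩
    rintro c ⟨hc, hcU, d, h⟩
    rw [expected_iff, good_iff] at h
    exact ⟨hc, hcU, d, h⟩
  · rw [hent]
    exact Pool.Agent.L7h88.CG.Ef_diff
  · rw [hent]
    exact Pool.Agent.L7h88.CG.Ef_noDE
  · intro r m d hr
    rw [expected_iff, good_iff, hent]
    exact Pool.Agent.L7h88.CG.Ef_zero hr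

end Pool.Agent.Results.MP_e6aa12_ag.GermsOfAnalyticCurves
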