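import Pool.Agent.L7h13.QU.Fin35

set_option autoImplicit false

/-!
# Collisions of seventeen to thirty-five fat points

Let `17 ≤ r ≤ 35`, `r ≠ 25`. For every field `k` of characteristic zero, every `m` and all
`(c, a)` outside a hypersurface, the forms of degree `d` through the subscheme of the plane with
ideal `(y - (a₀ + a₁ x + ... + a_(r-1) x ^ (r-1)), (x - c) ^ r) ^ m` have the expected dimension in
all degrees `d` except possibly in one, which is in the window
`lo r (d mod e) ≤ d - m √r < hi r`; here `e = 4` for `r < 25` and `e = 5` for `r > 25`.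
-/

namespace Pool.Agent.Results.MP_e6aa12_ag.SeventeenToThirtyFive

open Polynomial

universe u

/-- The forms of degree `d` in three variables whose dehomogenisation lies in the ideal
`(y - ∑ a_j x ^ j, (x - c) ^ r) ^ m` of `k[x][y]`. -/
noncomputable def forms {k : Type u} [Field k] {r : ℕ} (m : ℕ) (c : k) (a : Fin r → k) (d : ℕ) :
    Submodule k (MvPolynomial (Fin 3) k) :=
  MvPolynomial.homogeneousSubmodule (Fin 3) k d ⊓
    (Submodule.restrictScalars k
      ((Ideal.span {X - C (∑ j : Fin r, C (a j) * X ^ (j : ℕ)), C ((X - C c) ^ r)} :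
        Ideal k[X][X]) ^ m)).comap
      (MvPolynomial.aeval ![C X, X, 1] :
        MvPolynomial (Fin 3) k →ₐ[k] k[X][X]).toLinearMap

/-- Over every field of characteristic zero, for all `(c, a)` outside a hypersurface, the space of
forms has the expected dimension in all degrees `d` in the set `S`. -/
def Expected (r m : ℕ) (S : Set ℕ) : Prop :=
  ∀ (k : Type u) [Field k] [CharZero k],
    ∃ F : MvPolynomial (Fin (r + 1)) k, F ≠ 0 ∧
      ∀ (c : k) (a : Fin r → k), MvPolynomial.eval (Fin.cons c a : Fin (r + 1) → k) F ≠ 0 →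
        ∀ d ∈ S, Module.finrank k (forms m c a d) = Nat.choose (d + 2) 2 - r * Nat.choose (m + 1) 2

/-- The windows depend on the degree modulo this number. -/
def period (r : ℕ) : ℕ := if r < 25 then 4 else 5

/-- The upper end of the windows. -/
noncomputable def hi (r : ℕ) : ℝ :=
  if r = 18 ∨ r = 20 ∨ r = 27 ∨ r = 29 then (√(r : ℝ) - 3) / 2
  else if r < 25 then min (√(r : ℝ) - 7 / 2) ((√(r : ℝ) - 3) / 2 + 1 / 3 + 1 / (8 * √(r : ℝ)))
  else min (√(r : ℝ) - 4) ((√(r : ℝ) - 3) / 2 + 1 / 3 + 1 / (8 * √(r : ℝ)))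

/-- The lower end of the window for the degrees which are `i` modulo `period r`. If it is `hi r`,
there is no window. -/
noncomputable def lo (r i : ℕ) : ℝ :=
  if r = 18 ∨ r = 20 then
    if i = 0 then 1 / 2 - 2 / (4 + √(r : ℝ)) else if i = 1 then 1 / 2 else hi r
  else if r = 27 ∨ r = 29 then
    if i = 0 then 1 - 4 / (5 + √(r : ℝ)) else if i = 1 then 4 / 5 else if i = 2 then 1 else hi r
  else if r < 25 then
    if i = 0 then max (7 / (8 * √(r : ℝ))) ((√(r : ℝ) - 3) / 2 - 1 / 3 - 9 / (8 * √(r : ℝ)))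
    else if i = 1 then 15 / 32 else 1 / 2
  else
    if i = 0 then (√(r : ℝ) - 3) / 2 - 1 / 3 - 9 / (8 * √(r : ℝ))
    else if i = 1 then max (4 / 5) ((√(r : ℝ) - 3) / 2 - 1 / 3 - 9 / (8 * √(r : ℝ)))
    else if i = 2 then 24 / 25 else 1

theorem Expected.mono {r m : ℕ} {S S' : Set ℕ} (h : Expected.{u} r m S') (hS : S ⊆ S') :
    Expected.{u} r m S := by
  intro k _ _
  obtain ⟨F, hF, hF'⟩ := h k
  exact ⟨F, hF, fun c a hc d hd => hF' c a hc d (hS hd)⟩

theorem s_low {r : ℕ} (h1 : 17 ≤ r) (h2 : r < 25) : 4 < √(r : ℝ) ∧ √(r : ℝ) < 5 := by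
  have h3 : (17 : ℝ) ≤ r := by exact_mod_cast h1
  have h4 : (r : ℝ) < 25 := by exact_mod_cast h2
  constructor
  · rw [Real.lt_sqrt (by norm_num)]
    linarith
  · rw [Real.sqrt_lt' (by norm_num)]
    linarith

theorem s_high {r : ℕ} (h1 : 26 ≤ r) (h2 : r ≤ 35) : 5 < √(r : ℝ) ∧ √(r : ℝ) < 6 := by
  have h3 : (26 : ℝ) ≤ r := by exact_mod_cast h1
  have h4 : (r : ℝ) ≤ 35 := by exact_mod_cast h2
  constructor
  · rw [Real.lt_sqrt (by norm_num)]
    linarith
  · rw [Real.sqrt_lt' (by norm_num)]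
    linarith

theorem s_mid {r : ℕ} (h : r = 27 ∨ r = 29) : 5 < √(r : ℝ) ∧ √(r : ℝ) < 27 / 5 := by
  have h3 : (27 : ℝ) ≤ r := by
    have : 27 ≤ r := by omega
    exact_mod_cast this
  have h4 : (r : ℝ) ≤ 29 := by
    have : r ≤ 29 := by omega
    exact_mod_cast this
  constructor
  · rw [Real.lt_sqrt (by norm_num)]
    linarith
  · rw [Real.sqrt_lt' (by norm_num)]
    norm_num
    linarith

theorem inv_bd {s : ℝ} (h : 4 < s) : 0 < 1 / (8 * s) ∧ 1 / (8 * s) < 1 / 32 ∧
    7 / (8 * s) = 7 * (1 / (8 * s)) ∧ 9 / (8 * s) = 9 * (1 / (8 * s)) := by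
  refine ⟨by positivity, ?_, by ring, by ring⟩
  rw [div_lt_div_iff₀ (by linarith) (by norm_num)]
  linarith

/-- the windows are not longer than one, and not negative -/
theorem width {r : ℕ} (h1 : 17 ≤ r) (h2 : r ≤ 35) (h3 : r ≠ 25) (i : ℕ) :
    hi r - 1 < lo r i ∧ lo r i ≤ hi r := by
  obtain ⟨s, hs⟩ : ∃ s : ℝ, s = √(r : ℝ) := ⟨_, rfl⟩
  by_cases c1 : r = 18 ∨ r = 20
  · obtain ⟨s4, s5⟩ := s_low h1 (by omega)
    have e1 : hi r = (√(r : ℝ) - 3) / 2 := by unfold hi; rw [if_pos (by omega)]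
    unfold lo
    rw [if_pos c1, e1]
    rw [← hs] at s4 s5 ⊢
    have h5 : 0 < 2 / (4 + s) := by positivity
    have h6 : 2 / (4 + s) < 1 / 4 := by
      rw [div_lt_div_iff₀ (by linarith) (by norm_num)]
      linarith
    split_ifs
    · constructor <;> linarith
    · constructor <;> linarith
    · constructor <;> linarith
  by_cases c2 : r = 27 ∨ r = 29
  · obtain ⟨s5, s6⟩ := s_mid c2
    have e1 : hi r = (√(r : ℝ) - 3) / 2 := by unfold hi; rw [if_pos (by omega)]
    unfold lo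
    rw [if_neg c1, if_pos c2, e1]
    rw [← hs] at s5 s6 ⊢
    have h5 : 0 < 4 / (5 + s) := by positivity
    have h6 : 4 / (5 + s) < 2 / 5 := by
      rw [div_lt_div_iff₀ (by linarith) (by norm_num)]
      linarith
    split_ifs
    · constructor <;> linarith
    · constructor <;> linarith
    · constructor <;> linarith
    · constructor <;> linarith
  by_cases c3 : r < 25
  · obtain ⟨s4, s5⟩ := s_low h1 c3
    have e1 : hi r = min (√(r : ℝ) - 7 / 2) ((√(r : ℝ) - 3) / 2 + 1 / 3 + 1 / (8 * √(r : ℝ))) := by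
      unfold hi
      rw [if_neg (by omega), if_pos c3]
    unfold lo
    rw [if_neg c1, if_neg c2, if_pos c3, e1]
    rw [← hs] at s4 s5 ⊢
    obtain ⟨g1, g2, g3, g4⟩ := inv_bd s4
    rw [g3, g4]
    have h7 := min_le_right (s - 7 / 2) ((s - 3) / 2 + 1 / 3 + 1 / (8 * s))
    split_ifs
    · refine ⟨lt_max_of_lt_right (by linarith), ?_⟩
      rw [max_le_iff, le_min_iff, le_min_iff]
      refine ⟨⟨?_, ?_⟩, ?_, ?_⟩ <;> linarith
    · refine ⟨by linarith, ?_⟩
      rw [le_min_iff]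
      constructor <;> linarith
    · refine ⟨by linarith, ?_⟩
      rw [le_min_iff]
      constructor <;> linarith
  · obtain ⟨s5, s6⟩ := s_high (by omega : 26 ≤ r) h2
    have e1 : hi r = min (√(r : ℝ) - 4) ((√(r : ℝ) - 3) / 2 + 1 / 3 + 1 / (8 * √(r : ℝ))) := by
      unfold hi
      rw [if_neg (by omega), if_neg c3]
    unfold lo
    rw [if_neg c1, if_neg c2, if_neg c3, e1]
    rw [← hs] at s5 s6 ⊢
    obtain ⟨g1, g2, g3, g4⟩ := inv_bd (s := s) (by linarith)
    rw [g4]
    have h7 := min_le_right (s - 4) ((s - 3) / 2 + 1 / 3 + 1 / (8 * s))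
    split_ifs
    · refine ⟨by linarith, ?_⟩
      rw [le_min_iff]
      constructor <;> linarith
    · refine ⟨lt_max_of_lt_right (by linarith), ?_⟩
      rw [max_le_iff, le_min_iff, le_min_iff]
      refine ⟨⟨?_, ?_⟩, ?_, ?_⟩ <;> linarith
    · refine ⟨by linarith, ?_⟩
      rw [le_min_iff]
      constructor <;> linarith
    · refine ⟨by linarith, ?_⟩
      rw [le_min_iff]
      constructor <;> linarith

theorem irr_r {r : ℕ} (h1 : 17 ≤ r) (h2 : r ≤ 35) (h3 : r ≠ 25) : Irrational (√(r : ℝ)) := by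
  rw [irrational_sqrt_natCast_iff]
  by_cases c3 : r < 25
  · exact Pool.Agent.L7h13.QU.not_sq_17 h1 c3
  · exact Pool.Agent.L7h13.QU.not_sq_26 (by omega) h2

/-- the end of the window of the starting result is not attained -/
theorem strict {r m d : ℕ} {s : ℝ} (hs : s = √(r : ℝ)) (h4 : 4 < s) (hirr : Irrational s)
    (h : (s - 3) / 2 + 1 / 3 + 1 / (8 * s) ≤ (d : ℝ) - s * m) :
    s * (2 * m + 1) + (2 / 3 + 1 / (4 * s)) < 2 * d + 3 := by
  have e1 : 1 / (4 * s) = 2 * (1 / (8 * s)) := by ring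
  rw [e1]
  refine lt_of_le_of_ne (by linarith) fun he => ?_
  have hss : s * s = r := by rw [hs]; exact Real.mul_self_sqrt (Nat.cast_nonneg r)
  have hsi : s * (1 / (8 * s)) = 1 / 8 := by
    have : s ≠ 0 := by linarith
    field_simp
  have h5 : s * (s * (2 * m + 1) + (2 / 3 + 2 * (1 / (8 * s)))) = s * (2 * d + 3) := by rw [he]
  have h6 : s * ((24 * d + 28 : ℕ) : ℝ) = ((12 * r * (2 * m + 1) + 3 : ℕ) : ℝ) := by
    push_cast
    linear_combination (-12) * h5 + 24 * hsi + 12 * (2 * m + 1) * hss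
  have h7 : Irrational (s * ((24 * d + 28 : ℕ) : ℝ)) := hirr.mul_natCast (by omega)
  rw [h6] at h7
  exact Nat.not_irrational _ h7

/-- the degrees outside the windows -/
theorem good {r : ℕ} (h1 : 17 ≤ r) (h2 : r ≤ 35) (h3 : r ≠ 25) (m : ℕ) :
    Expected.{u} r m {d | ¬ (lo r (d % period r) ≤ (d : ℝ) - √(r : ℝ) * m ∧
      (d : ℝ) - √(r : ℝ) * m < hi r)} := by
  intro k _ _
  have hirr := irr_r h1 h2 h3
  obtain ⟨s, hs⟩ : ∃ s : ℝ, s = √(r : ℝ) := ⟨_, rfl⟩
  by_cases c1 : r = 18 ∨ r = 20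
  · obtain ⟨s4, s5⟩ := s_low h1 (by omega)
    have e1 : hi r = (√(r : ℝ) - 3) / 2 := by unfold hi; rw [if_pos (by omega)]
    have e2 : period r = 4 := by unfold period; rw [if_pos (by omega)]
    obtain ⟨F, hF, hF'⟩ := Pool.Agent.L7h13.NQ.coll4 c1 m k
    refine ⟨F, hF, fun c a hc d hd => hF' c a hc d ?_⟩
    rw [Set.mem_setOf_eq] at hd
    unfold lo at hd
    rw [if_pos c1, e1, e2] at hd
    rw [← hs] at s4 s5 hd ⊢
    rw [not_and_or, not_le, not_lt] at hd
    rcases hd with hd | hd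
    · split_ifs at hd with c4 c5
      · refine Or.inr (Or.inr (Or.inr (Or.inr ?_)))
        have h5 : (4 + s) * (2 / (4 + s)) = 2 := by field_simp
        have h6 : 2 * (d : ℝ) - 1 - 2 * s * m < -(2 * (2 / (4 + s))) := by linarith
        have h7 := mul_lt_mul_of_pos_left h6 (by linarith : 0 < 4 + s)
        linarith
      · exact Or.inr (Or.inr (Or.inr (Or.inl ⟨c5, by linarith⟩)))
      · have : d % 4 < 4 := Nat.mod_lt _ (by norm_num)
        rcases (by omega : d % 4 = 2 ∨ d % 4 = 3) with h | h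
        · exact Or.inl h
        · exact Or.inr (Or.inl h)
    · exact Or.inr (Or.inr (Or.inl (by linarith)))
  by_cases c2 : r = 27 ∨ r = 29
  · obtain ⟨s5, s6⟩ := s_mid c2
    have e1 : hi r = (√(r : ℝ) - 3) / 2 := by unfold hi; rw [if_pos (by omega)]
    have e2 : period r = 5 := by unfold period; rw [if_neg (by omega)]
    obtain ⟨F, hF, hF'⟩ := Pool.Agent.L7h13.QU.fin27 c2 m k
    refine ⟨F, hF, fun c a hc d hd => hF' c a hc d ?_⟩
    rw [Set.mem_setOf_eq] at hd
    unfold lo at hd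
    rw [if_neg c1, if_pos c2, e1, e2] at hd
    rw [← hs] at s5 s6 hd ⊢
    rw [not_and_or, not_le, not_lt] at hd
    rcases hd with hd | hd
    · split_ifs at hd with c4 c5 c6
      · refine Or.inr (Or.inr (Or.inr (Or.inr (Or.inr ⟨c4, ?_⟩))))
        have h5 : (5 + s) * (4 / (5 + s)) = 4 := by field_simp
        have h6 : (d : ℝ) - 1 - s * m < -(4 / (5 + s)) := by linarith
        have h7 := mul_lt_mul_of_pos_left h6 (by linarith : 0 < 5 + s)
        linarith
      · exact Or.inr (Or.inr (Or.inr (Or.inl ⟨c5, by linarith⟩)))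
      · exact Or.inr (Or.inr (Or.inr (Or.inr (Or.inl ⟨c6, by linarith⟩))))
      · have : d % 5 < 5 := Nat.mod_lt _ (by norm_num)
        rcases (by omega : d % 5 = 3 ∨ d % 5 = 4) with h | h
        · exact Or.inr (Or.inl h)
        · exact Or.inr (Or.inr (Or.inl h))
    · exact Or.inl (by linarith)
  by_cases c3 : r < 25
  · obtain ⟨s4, s5⟩ := s_low h1 c3
    have e1 : hi r = min (√(r : ℝ) - 7 / 2) ((√(r : ℝ) - 3) / 2 + 1 / 3 + 1 / (8 * √(r : ℝ))) := by
      unfold hi
      rw [if_neg (by omega), if_pos c3]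
    have e2 : period r = 4 := by unfold period; rw [if_pos c3]
    obtain ⟨F, hF, hF'⟩ := Pool.Agent.L7h13.QU.fin4 h1 c3 m k
    refine ⟨F, hF, fun c a hc d hd => hF' c a hc d ?_⟩
    rw [Set.mem_setOf_eq] at hd
    unfold lo at hd
    rw [if_neg c1, if_neg c2, if_pos c3, e1, e2] at hd
    rw [← hs] at s4 s5 hd hirr ⊢
    have e3 : 9 / (4 * s) = 2 * (9 / (8 * s)) := by ring
    rw [not_and_or, not_le, not_lt] at hd
    rcases hd with hd | hd
    · split_ifs at hd with c4 c5
      · rw [lt_max_iff] at hd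
        rcases hd with hd | hd
        · exact Or.inr (Or.inr (Or.inr (Or.inl (by linarith))))
        · refine Or.inr (Or.inr (Or.inl ?_))
          rw [e3]
          linarith
      · exact Or.inr (Or.inr (Or.inr (Or.inr (Or.inl ⟨c5, by linarith⟩))))
      · have : d % 4 < 4 := Nat.mod_lt _ (by norm_num)
        exact Or.inr (Or.inr (Or.inr (Or.inr (Or.inr ⟨by omega, by linarith⟩))))
    · rw [min_le_iff] at hd
      rcases hd with hd | hd
      · exact Or.inr (Or.inl (by linarith))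
      · exact Or.inl (strict hs s4 hirr hd)
  · obtain ⟨s5, s6⟩ := s_high (by omega : 26 ≤ r) h2
    have e1 : hi r = min (√(r : ℝ) - 4) ((√(r : ℝ) - 3) / 2 + 1 / 3 + 1 / (8 * √(r : ℝ))) := by
      unfold hi
      rw [if_neg (by omega), if_neg c3]
    have e2 : period r = 5 := by unfold period; rw [if_neg c3]
    obtain ⟨F, hF, hF'⟩ := Pool.Agent.L7h13.QU.fin5 (by omega : 26 ≤ r) h2 m k
    refine ⟨F, hF, fun c a hc d hd => hF' c a hc d ?_⟩
    rw [Set.mem_setOf_eq] at hd
    unfold lo at hd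
    rw [if_neg c1, if_neg c2, if_neg c3, e1, e2] at hd
    rw [← hs] at s5 s6 hd hirr ⊢
    have e3 : 9 / (4 * s) = 2 * (9 / (8 * s)) := by ring
    rw [not_and_or, not_le, not_lt] at hd
    rcases hd with hd | hd
    · split_ifs at hd with c4 c5 c6
      · refine Or.inr (Or.inr (Or.inl ?_))
        rw [e3]
        linarith
      · rw [lt_max_iff] at hd
        rcases hd with hd | hd
        · exact Or.inr (Or.inr (Or.inr (Or.inl ⟨c5, by linarith⟩)))
        · refine Or.inr (Or.inr (Or.inl ?_))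
          rw [e3]
          linarith
      · exact Or.inr (Or.inr (Or.inr (Or.inr (Or.inl ⟨c6, by linarith⟩))))
      · have : d % 5 < 5 := Nat.mod_lt _ (by norm_num)
        exact Or.inr (Or.inr (Or.inr (Or.inr (Or.inr ⟨by omega, by linarith⟩))))
    · rw [min_le_iff] at hd
      rcases hd with hd | hd
      · exact Or.inr (Or.inl (by linarith))
      · exact Or.inl (strict hs (by linarith) hirr hd)

theorem result (r : ℕ) (hr : 17 ≤ r) (hr' : r ≤ 35) (hr'' : r ≠ 25) :
    (∀ m : ℕ, Expected.{u} r m {d | ¬ (lo r (d % period r) ≤ (d : ℝ) - √(r : ℝ) * m ∧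
      (d : ℝ) - √(r : ℝ) * m < hi r)}) ∧
    (∀ m : ℕ, ∃ d₀ : ℕ, Expected.{u} r m {d | d ≠ d₀}) ∧
    ∀ ε : ℝ, 0 < ε → ∃ M₀ : ℕ, ∀ M : ℕ, M₀ ≤ M →
      (Set.ncard {m : ℕ | m < M ∧ ¬ Expected.{u} r m Set.univ} : ℝ) ≤
        (∑ i ∈ Finset.range (period r), (hi r - lo r i) / period r + ε) * M := by
  classical
  refine ⟨good hr hr' hr'', fun m => ?_, fun ε hε => ?_⟩
  · by_cases hex : ∃ d : ℕ, lo r (d % period r) ≤ (d : ℝ) - √(r : ℝ) * m ∧
      (d : ℝ) - √(r : ℝ) * m < hi r
    · obtain ⟨d₀, c1, c2⟩ := hex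
      refine ⟨d₀, (good hr hr' hr'' m).mono fun d hd => ?_⟩
      rintro ⟨c3, c4⟩
      apply hd
      have w1 := (width hr hr' hr'' (d₀ % period r)).1
      have w2 := (width hr hr' hr'' (d % period r)).1
      have e1 : (d : ℝ) < d₀ + 1 := by linarith
      have e2 : (d₀ : ℝ) < d + 1 := by linarith
      have e3 : d < d₀ + 1 := by exact_mod_cast e1
      have e4 : d₀ < d + 1 := by exact_mod_cast e2
      omega
    · push Not at hex
      exact ⟨0, (good hr hr' hr'' m).mono fun d _ h => absurd (hex d h.1) (not_le.2 h.2)⟩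
  · obtain ⟨e, he⟩ : ∃ e : ℕ, e = period r := ⟨_, rfl⟩
    have he0 : 0 < e := by
      rw [he]; unfold period; split_ifs <;> norm_num
    have heR : (0 : ℝ) < e := by exact_mod_cast he0
    obtain ⟨s, hs⟩ : ∃ s : ℝ, s = √(r : ℝ) := ⟨_, rfl⟩
    have hirr : Irrational (s / e) := by
      rw [hs]
      exact (irr_r hr hr' hr'').div_natCast he0.ne'
    have hcount : ∀ i : ℕ, ∃ M1 : ℝ, ∀ M : ℕ, M1 ≤ M → ∀ B : Finset ℕ, (∀ m ∈ B, m < M) →
        (∀ m ∈ B, ∃ D : ℤ, s / e * m + 0 - (-(lo r i - i) / e) ≤ D ∧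
          (D : ℝ) ≤ s / e * m + 0 + (hi r - i) / e) →
        (B.card : ℝ) ≤ (-(lo r i - i) / e + (hi r - i) / e + ε / e) * M := by
      intro i
      refine Pool.Agent.TH885.NW.count_sharp hirr 0 _ _ ?_ (div_pos hε heR)
      rw [← add_div]
      refine div_nonneg ?_ heR.le
      linarith [(width hr hr' hr'' i).2]
    choose M1 hM1 using hcount
    refine ⟨∑ i ∈ Finset.range e, ⌈M1 i⌉₊, fun M hM => ?_⟩
    have hMi : ∀ i ∈ Finset.range e, M1 i ≤ M := by
      intro i hi'
      have h1 : ⌈M1 i⌉₊ ≤ ∑ i ∈ Finset.range e, ⌈M1 i⌉₊ :=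
        Finset.single_le_sum (f := fun i => ⌈M1 i⌉₊) (fun _ _ => Nat.zero_le _) hi'
      exact (Nat.le_ceil _).trans (by exact_mod_cast h1.trans hM)
    have hfin : {m : ℕ | m < M ∧ ¬ Expected.{u} r m Set.univ}.Finite :=
      (Set.finite_lt_nat M).subset fun m hm => hm.1
    have hfi : ∀ i : ℕ, {m : ℕ | m < M ∧ ∃ D : ℤ, s / e * m + 0 - (-(lo r i - i) / e) ≤ D ∧
        (D : ℝ) ≤ s / e * m + 0 + (hi r - i) / e}.Finite := fun i =>
      (Set.finite_lt_nat M).subset fun m hm => hm.1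
    have hsub : hfin.toFinset ⊆ (Finset.range e).biUnion fun i => (hfi i).toFinset := by
      intro m hm
      obtain ⟨hmM, hbad⟩ := (Set.Finite.mem_toFinset hfin).1 hm
      rw [Finset.mem_biUnion]
      by_contra hcon
      push Not at hcon
      apply hbad
      refine (good hr hr' hr'' m).mono fun d _ => ?_
      rw [Set.mem_setOf_eq]
      rintro ⟨c1, c2⟩
      refine hcon (d % e) (Finset.mem_range.2 (Nat.mod_lt _ he0)) ?_
      rw [Set.Finite.mem_toFinset]
      rw [← he] at c1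
      rw [← hs] at c1 c2
      have h5 : (d : ℝ) = e * ((d / e : ℕ) : ℝ) + ((d % e : ℕ) : ℝ) := by
        exact_mod_cast (Nat.div_add_mod d e).symm
      refine ⟨hmM, ((d / e : ℕ) : ℤ), ?_, ?_⟩
      · rw [Int.cast_natCast, add_zero, neg_div, sub_neg_eq_add, div_mul_eq_mul_div, ← add_div,
          div_le_iff₀ heR]
        linarith
      · rw [Int.cast_natCast, add_zero, div_mul_eq_mul_div, ← add_div, le_div_iff₀ heR]
        linarith
    rw [Set.ncard_eq_toFinset_card _ hfin]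
    have c3 := (Finset.card_le_card hsub).trans Finset.card_biUnion_le
    have c4 : (hfin.toFinset.card : ℝ) ≤ ∑ i ∈ Finset.range e, ((hfi i).toFinset.card : ℝ) := by
      exact_mod_cast c3
    refine c4.trans ?_
    have c5 : ∀ i ∈ Finset.range e, ((hfi i).toFinset.card : ℝ) ≤
        ((hi r - lo r i) / e + ε / e) * M := by
      intro i hi'
      refine (hM1 i M (hMi i hi') _ (fun m hm => ((Set.Finite.mem_toFinset (hfi i)).1 hm).1)
        (fun m hm => ((Set.Finite.mem_toFinset (hfi i)).1 hm).2)).trans_eq ?_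
      ring
    refine (Finset.sum_le_sum c5).trans_eq ?_
    rw [← Finset.sum_mul, Finset.sum_add_distrib, Finset.sum_const, Finset.card_range, nsmul_eq_mul,
      mul_div_cancel₀ _ heR.ne', he]

end Pool.Agent.Results.MP_e6aa12_ag.SeventeenToThirtyFive
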